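import Mathlib
import Pool.Agent.Lib.MP_ec82ff_co.Defs
import Pool.Agent.Lib.MP_ec82ff_co.Proof

set_option autoImplicit false

namespace Pool.Agent.Results.MP_ec82ff_co.LinearSubdivision

open Pool.Agent.Lib.MP_ec82ff_co

/-- If the `p`-subdivisions of complete graphs have bounded reduced bandwidth then `p` grows at least
linearly: for every constant `c` there is `δ > 0`, namely `δ = 1 / (4 |c| + 3)`, such that `p ≥ δ n` whenever
`n ≥ 2`, `p ≥ 1` and the reduced bandwidth of the `p`-subdivision of `K_n` is at most `c`. -/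
theorem result : ∀ c : ℝ, ∃ δ : ℝ, 0 < δ ∧ δ = 1 / (4 * |c| + 3) ∧
    ∀ n p : ℕ, 2 ≤ n → 1 ≤ p → (reducedBandwidth (subdividedComplete n p) : ℝ) ≤ c →
      δ * (n : ℝ) ≤ (p : ℝ) := by
  intro c
  have hpos : (0 : ℝ) < 4 * |c| + 3 := by
    have := abs_nonneg c
    linarith
  refine ⟨1 / (4 * |c| + 3), by positivity, rfl, ?_⟩
  intro n p hn hp hc
  have h1 := explicit n p hn hp
  have h2 : (n : ℝ) ≤ (4 * (reducedBandwidth (subdividedComplete n p) : ℝ) + 3) * p := by
    exact_mod_cast h1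
  have h3 : c ≤ |c| := le_abs_self c
  have h4 : (0 : ℝ) ≤ p := Nat.cast_nonneg p
  have h5 : (n : ℝ) ≤ (4 * |c| + 3) * p := by
    refine h2.trans (mul_le_mul_of_nonneg_right ?_ h4)
    linarith
  rw [div_mul_eq_mul_div, one_mul, div_le_iff₀ hpos]
  linarith

end Pool.Agent.Results.MP_ec82ff_co.LinearSubdivision
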